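import Mathlib
import Pool.Agent.SSP.Poly
import Pool.Agent.SSP.PrimeSh

/-!
Correlation of the Möbius function with shifted primes for almost all shifts in sparse sets.
-/

set_option autoImplicit false

namespace Pool.Agent.Results.MP_0bfb7f_nt.SparseShifts

open Finset ArithmeticFunction

/-- the number of `(x, y) ∈ S^r × S^r` with `∑ x_i = ∑ y_i` -/
def additiveEnergy (r : ℕ) (S : Finset ℕ) : ℕ :=
  ((Fintype.piFinset (fun _ : Fin r => S) ×ˢ Fintype.piFinset (fun _ : Fin r => S)).filter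
    (fun z : (Fin r → ℕ) × (Fin r → ℕ) => ∑ i, z.1 i = ∑ i, z.2 i)).card

private lemma energy_eq (r : ℕ) (S : Finset ℕ) :
    Pool.SSP.energy r S (fun k => (k : ℤ)) = additiveEnergy r S := by
  unfold Pool.SSP.energy additiveEnergy
  congr 1
  ext z
  simp only [Finset.mem_filter]
  rw [← Nat.cast_sum, ← Nat.cast_sum, Nat.cast_inj]

theorem result :
    (∀ r : ℕ, 1 ≤ r → ∃ C : ℝ, ∀ (A : ℕ) (E ε : ℝ), 0 < ε → ∃ X₀ : ℕ,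
      ∀ (X H h₀ : ℕ) (S : Finset ℕ) (b : ℕ → ℂ),
      X₀ ≤ X → (Real.log X) ^ C ≤ H → H ≤ X → h₀ ≤ A * X → S ⊆ Finset.Ioc h₀ (h₀ + H) →
      (H : ℝ) * additiveEnergy r S ≤ E * (S.card : ℝ) ^ (2 * r) → (∀ n, ‖b n‖ ≤ 1) →
      ∑ h ∈ S, ‖∑ n ∈ Finset.Icc 1 X, b n * ((vonMangoldt n : ℝ) : ℂ) *
        ((moebius (n + h) : ℤ) : ℂ)‖ ≤ ε * S.card * X) ∧
    (∀ d : ℕ, 1 ≤ d → ∃ C : ℝ, ∀ f : Polynomial ℤ, f.natDegree = d → 0 < f.leadingCoeff →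
      ∀ (A : ℕ) (ε : ℝ), 0 < ε → ∃ X₀ : ℕ, ∀ (X K h₀ : ℕ) (b : ℕ → ℂ),
      X₀ ≤ X → (Real.log X) ^ C ≤ K → (∀ k ∈ Finset.Icc 1 K, f.eval (k : ℤ) ≤ X) → h₀ ≤ A * X →
      (∀ n, ‖b n‖ ≤ 1) →
      ∑ k ∈ Finset.Icc 1 K, ‖∑ n ∈ Finset.Icc 1 X, b n * ((vonMangoldt n : ℝ) : ℂ) *
        ((moebius ((n : ℤ) + h₀ + f.eval (k : ℤ)).toNat : ℤ) : ℂ)‖ ≤ ε * K * X) ∧
    (∃ C : ℝ, ∀ (A : ℕ) (ε : ℝ), 0 < ε → ∃ X₀ : ℕ, ∀ (X Q h₀ : ℕ) (b : ℕ → ℂ),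
      X₀ ≤ X → (Real.log X) ^ C ≤ Q → Q ≤ X → h₀ ≤ A * X → (∀ n, ‖b n‖ ≤ 1) →
      ∑ q ∈ (Finset.Icc 1 Q).filter Nat.Prime, ‖∑ n ∈ Finset.Icc 1 X, b n * ((vonMangoldt n : ℝ) : ℂ) *
        ((moebius (n + h₀ + q) : ℤ) : ℂ)‖ ≤ ε * ((Finset.Icc 1 Q).filter Nat.Prime).card * X) := by
  refine ⟨fun r hr => ?_, fun d hd => ?_, ?_⟩
  · obtain ⟨A₂, h⟩ := Pool.SSP.sparse_gen Pool.MRZ.mu Pool.MRZ.norm_mu_le Pool.MRZ.sup_mu r hr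
    refine ⟨A₂, fun A E ε hε => ?_⟩
    obtain ⟨X₀, h⟩ := h A E ε hε
    refine ⟨X₀, fun X H h₀ S b h1 h2 h3 h4 h5 h6 h7 => ?_⟩
    have h8 := h X H h₀ S (fun k => k) b h1 h2 h3 h4 (fun k hk => by
      have := h5 hk
      rw [Finset.mem_Ioc] at this
      exact this) (by rw [energy_eq]; exact h6) h7
    simpa only [Pool.MRZ.mu] using h8
  · obtain ⟨A₂, h⟩ := Pool.SSP.poly_shifts d hd
    refine ⟨A₂, fun f hf hl A ε hε => ?_⟩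
    obtain ⟨X₀, h⟩ := h f hf hl A ε hε
    refine ⟨X₀, fun X K h₀ b h1 h2 h3 h4 h5 => ?_⟩
    have h8 := h X K h₀ b h1 h2 h3 h4 h5
    simpa only [Pool.MRZ.mu] using h8
  · obtain ⟨A₂, h⟩ := Pool.SSP.prime_shifts
    refine ⟨A₂, fun A ε hε => ?_⟩
    obtain ⟨X₀, h⟩ := h A ε hε
    refine ⟨X₀, fun X Q h₀ b h1 h2 h3 h4 h5 => ?_⟩
    have h8 := h X Q h₀ b h1 h2 h3 h4 h5
    simpa only [Pool.MRZ.mu] using h8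

end Pool.Agent.Results.MP_0bfb7f_nt.SparseShifts
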